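import Pool.Agent.E8helper50.SR.S

/-! Project SR, piece EPS. -/

set_option autoImplicit false

universe u

namespace Pool.Agent.E8helper64.SR

open Pool.Agent.E8helper50.SR Finset

lemma z2 (x : ZMod 2) : x = 0 ∨ x = 1 := by revert x; decide

/-- the sign of the odd letters at the right of position `k` -/
def rs {n : ℕ} (q : Fin n → ZMod 2) (k : Fin n) : ℤ :=
  ∏ i : Fin n, if k < i ∧ q i = 1 then (-1 : ℤ) else 1

lemma upd_cast {X : Type u} {n : ℕ} (x : Fin (n + 2) → X) (k : Fin (n + 1)) (v : X) :
    (fun i : Fin (n + 1) => Function.update x k.castSucc v i.castSucc) =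
      Function.update (fun i : Fin (n + 1) => x i.castSucc) k v := by
  ext i
  by_cases h : i = k
  · subst h; simp
  · rw [Function.update_of_ne (by simpa [Fin.castSucc_inj] using h), Function.update_of_ne h]

lemma upd_last {X : Type u} {n : ℕ} (x : Fin (n + 2) → X) (k : Fin (n + 1)) (v : X) :
    Function.update x k.castSucc v (Fin.last (n + 1)) = x (Fin.last (n + 1)) := by
  rw [Function.update_of_ne]
  exact (Fin.castSucc_lt_last k).ne'

lemma upd_last' {X : Type u} {n : ℕ} (x : Fin (n + 2) → X) (v : X) :
    (fun i : Fin (n + 1) => Function.update x (Fin.last (n + 1)) v i.castSucc) =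
      fun i : Fin (n + 1) => x i.castSucc := by
  ext i
  rw [Function.update_of_ne]
  exact (Fin.castSucc_lt_last i).ne

section

variable {F : Type u} [Field F] {A A' : SAlg F} (ι κ : A →ₗ[F] A')

lemma wprod_iota (h1 : ∀ x y, ι (x * y) = ι x * ι y) (n : ℕ) (a : Fin (n + 1) → A) :
    wprod n (fun i => ι (a i)) = ι (wprod n a) := by
  induction n with
  | zero => rfl
  | succ n ih =>
    show wprod n (fun i => ι (a i.castSucc)) * ι (a (Fin.last (n + 1))) =
      ι (wprod n (fun i => a i.castSucc) * a (Fin.last (n + 1)))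
    rw [h1, ih (fun i => a i.castSucc)]

lemma wprod_upd (h1 : ∀ x y, ι (x * y) = ι x * ι y) (h6 : ∀ x y, ι x * κ y = κ (x * y))
    (h8 : ∀ x, ∀ y ∈ A.gr 0, κ x * ι y = κ (x * y))
    (h9 : ∀ x, ∀ y ∈ A.gr 1, κ x * ι y = - κ (x * y)) (n : ℕ) (q : Fin (n + 1) → ZMod 2)
    (a : Fin (n + 1) → A) (k : Fin (n + 1)) (ha : ∀ i, i ≠ k → a i ∈ A.gr (q i)) (b : A) :
    wprod n (Function.update (fun i => ι (a i)) k (κ b)) =
      rs q k • κ (wprod n (Function.update a k b)) := by
  induction n with
  | zero =>
    have hk : k = 0 := by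
      apply Fin.ext
      have := k.2
      simp only [Fin.val_zero]
      omega
    subst hk
    simp [wprod, rs]
  | succ n ih =>
    show wprod n (fun i => Function.update (fun i => ι (a i)) k (κ b) i.castSucc) *
        Function.update (fun i => ι (a i)) k (κ b) (Fin.last (n + 1)) =
      rs q k • κ (wprod n (fun i => Function.update a k b i.castSucc) *
        Function.update a k b (Fin.last (n + 1)))
    rcases Fin.eq_castSucc_or_eq_last k with ⟨k, rfl⟩ | rfl
    · rw [upd_cast, upd_last, upd_cast, upd_last,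
        ih (fun i => q i.castSucc) (fun i => a i.castSucc) k
          (fun i hi => ha _ (by simpa [Fin.castSucc_inj] using hi))]
      have hl := ha (Fin.last (n + 1)) (Fin.castSucc_lt_last k).ne'
      have hrs : rs q k.castSucc = rs (fun i => q i.castSucc) k *
          (if q (Fin.last (n + 1)) = 1 then -1 else 1) := by
        unfold rs
        rw [Fin.prod_univ_castSucc]
        simp [Fin.castSucc_lt_last]
      rw [smul_mul_assoc, hrs]
      rcases z2 (q (Fin.last (n + 1))) with h | h
      · rw [h] at hl ⊢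
        rw [h8 _ _ hl]
        simp
      · rw [h] at hl ⊢
        rw [h9 _ _ hl]
        simp
    · rw [upd_last', upd_last', Function.update_self, Function.update_self,
        wprod_iota ι h1 n (fun i => a i.castSucc), h6]
      have hrs : rs q (Fin.last (n + 1)) = 1 := by
        unfold rs
        apply Finset.prod_eq_one
        intro i _
        rw [if_neg]
        rintro ⟨h, _⟩
        exact absurd (Fin.le_last i) (not_le.mpr h)
      rw [hrs, one_smul]

lemma wprod_add (h1 : ∀ x y, ι (x * y) = ι x * ι y) (h6 : ∀ x y, ι x * κ y = κ (x * y))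
    (h7 : ∀ x y, κ x * κ y = 0)
    (h8 : ∀ x, ∀ y ∈ A.gr 0, κ x * ι y = κ (x * y))
    (h9 : ∀ x, ∀ y ∈ A.gr 1, κ x * ι y = - κ (x * y)) (n : ℕ) (q : Fin (n + 1) → ZMod 2)
    (a b : Fin (n + 1) → A) (ha : ∀ i, a i ∈ A.gr (q i)) :
    wprod n (fun i => ι (a i) + κ (b i)) = ι (wprod n a) +
      ∑ k, wprod n (Function.update (fun i => ι (a i)) k (κ (b k))) := by
  induction n with
  | zero => simp [wprod]
  | succ n ih =>
    have ih' := ih (fun i => q i.castSucc) (fun i => a i.castSucc) (fun i => b i.castSucc)
      (fun i => ha _)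
    show wprod n (fun i => ι (a i.castSucc) + κ (b i.castSucc)) *
        (ι (a (Fin.last (n + 1))) + κ (b (Fin.last (n + 1)))) =
      ι (wprod n (fun i => a i.castSucc) * a (Fin.last (n + 1))) +
      ∑ k, wprod n (fun i => Function.update (fun i => ι (a i)) k (κ (b k)) i.castSucc) *
        Function.update (fun i => ι (a i)) k (κ (b k)) (Fin.last (n + 1))
    rw [ih', Fin.sum_univ_castSucc (fun k : Fin (n + 2) =>
      wprod n (fun i => Function.update (fun i => ι (a i)) k (κ (b k)) i.castSucc) *
        Function.update (fun i => ι (a i)) k (κ (b k)) (Fin.last (n + 1))), upd_last',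
      Function.update_self, wprod_iota ι h1 n (fun i => a i.castSucc)]
    have hz : (∑ k, wprod n (Function.update (fun i : Fin (n + 1) => ι (a i.castSucc)) k
        (κ (b k.castSucc)))) * κ (b (Fin.last (n + 1))) = 0 := by
      rw [Finset.sum_mul]
      apply Finset.sum_eq_zero
      intro k _
      rw [wprod_upd ι κ h1 h6 h8 h9 n (fun i => q i.castSucc) (fun i => a i.castSucc) k
        (fun i _ => ha _), smul_mul_assoc, h7, smul_zero]
    have hs : ∑ k : Fin (n + 1), wprod n (fun i => Function.update (fun i => ι (a i)) k.castSucc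
          (κ (b k.castSucc)) i.castSucc) *
        Function.update (fun i => ι (a i)) k.castSucc (κ (b k.castSucc)) (Fin.last (n + 1)) =
        (∑ k, wprod n (Function.update (fun i : Fin (n + 1) => ι (a i.castSucc)) k
        (κ (b k.castSucc)))) * ι (a (Fin.last (n + 1))) := by
      rw [Finset.sum_mul]
      apply Finset.sum_congr rfl
      intro k _
      rw [upd_cast, upd_last]
    rw [hs, h1, mul_add, add_mul, add_mul, hz]
    abel

/-- the sign in KSG -/
lemma rs_perm {n : ℕ} (p : Fin n → ZMod 2) (σ : Equiv.Perm (Fin n)) (j : Fin n) :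
    rs (fun i => p (σ i)) (σ.symm j) =
      ∏ i : Fin n, if σ.symm j < σ.symm i ∧ p i = 1 then (-1 : ℤ) else 1 := by
  unfold rs
  rw [← Equiv.prod_comp σ (fun i => if σ.symm j < σ.symm i ∧ p i = 1 then (-1 : ℤ) else 1)]
  simp

lemma comp_upd {X : Type u} {n : ℕ} (x : Fin n → X) (σ : Equiv.Perm (Fin n)) (j : Fin n) (v : X) :
    (fun i => Function.update x j v (σ i)) =
      Function.update (fun i => x (σ i)) (σ.symm j) v := by
  ext i
  by_cases h : i = σ.symm j
  · subst h; simp
  · rw [Function.update_of_ne h, Function.update_of_ne]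
    intro h2
    apply h
    rw [← h2, Equiv.symm_apply_apply]

lemma sq_one {n : ℕ} (P : Fin n → Prop) [DecidablePred P] :
    (∏ i : Fin n, if P i then (-1 : ℤ) else 1) * (∏ i : Fin n, if P i then (-1 : ℤ) else 1) = 1 := by
  rw [← Finset.prod_mul_distrib]
  apply Finset.prod_eq_one
  intro i _
  split_ifs <;> norm_num

lemma sev_upd (hK : S_KSG) (h1 : ∀ x y, ι (x * y) = ι x * ι y)
    (h6 : ∀ x y, ι x * κ y = κ (x * y))
    (h8 : ∀ x, ∀ y ∈ A.gr 0, κ x * ι y = κ (x * y))
    (h9 : ∀ x, ∀ y ∈ A.gr 1, κ x * ι y = - κ (x * y)) (f : MPoly F)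
    (p : Fin (f.n + 1) → ZMod 2) (a : Fin (f.n + 1) → A) (j : Fin (f.n + 1)) (hp : p j = 0)
    (ha : ∀ i, i ≠ j → a i ∈ A.gr (p i)) (b : A) :
    sev f (Function.update p j 1) (Function.update (fun i => ι (a i)) j (κ b)) =
      rs p j • κ (sev f p (Function.update a j b)) ∧
    sev f p (Function.update (fun i => ι (a i)) j (κ b)) =
      rs p j • κ (sev f (Function.update p j 1) (Function.update a j b)) := by
  have hw : ∀ σ : Equiv.Perm (Fin (f.n + 1)),
      wprod f.n (fun i => Function.update (fun i => ι (a i)) j (κ b) (σ i)) =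
        (∏ i : Fin (f.n + 1), if σ.symm j < σ.symm i ∧ p i = 1 then (-1 : ℤ) else 1) •
          κ (wprod f.n (fun i => Function.update a j b (σ i))) := by
    intro σ
    rw [comp_upd, comp_upd, wprod_upd ι κ h1 h6 h8 h9 f.n (fun i => p (σ i)) (fun i => a (σ i))
      (σ.symm j) (fun i hi => ha _ (fun h => hi (by rw [← h, Equiv.symm_apply_apply]))), rs_perm]
  have hkey : ∀ σ : Equiv.Perm (Fin (f.n + 1)),
      ksgn (Function.update p j 1) σ *
        (∏ i : Fin (f.n + 1), if σ.symm j < σ.symm i ∧ p i = 1 then (-1 : ℤ) else 1) =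
        rs p j * ksgn p σ := by
    intro σ
    rw [hK (f.n + 1) p j σ hp, mul_comm]
    rfl
  have hkey2 : ∀ σ : Equiv.Perm (Fin (f.n + 1)),
      ksgn p σ *
        (∏ i : Fin (f.n + 1), if σ.symm j < σ.symm i ∧ p i = 1 then (-1 : ℤ) else 1) =
        rs p j * ksgn (Function.update p j 1) σ := by
    intro σ
    have hS := sq_one (fun i : Fin (f.n + 1) => σ.symm j < σ.symm i ∧ p i = 1)
    have hR := sq_one (fun i : Fin (f.n + 1) => j < i ∧ p i = 1)
    change rs p j * rs p j = 1 at hR
    have h := hkey σ
    set S := ∏ i : Fin (f.n + 1), if σ.symm j < σ.symm i ∧ p i = 1 then (-1 : ℤ) else 1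
    calc ksgn p σ * S = (rs p j * rs p j) * (ksgn p σ * S) := by rw [hR, one_mul]
      _ = rs p j * (rs p j * ksgn p σ) * S := by ring
      _ = rs p j * ksgn (Function.update p j 1) σ * (S * S) := by rw [← h]; ring
      _ = rs p j * ksgn (Function.update p j 1) σ := by rw [hS, mul_one]
  have hgen : ∀ (c : F) (s t S : ℤ) (w : A), s * S = rs p j * t →
      (c * (s : F)) • (S • κ w) = rs p j • κ ((c * (t : F)) • w) := by
    intro c s t S w h
    rw [← Int.cast_smul_eq_zsmul F S, ← Int.cast_smul_eq_zsmul F (rs p j), smul_smul,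
      map_smul, smul_smul]
    congr 1
    have : (s : F) * (S : F) = (rs p j : F) * (t : F) := by exact_mod_cast congrArg (Int.cast (R := F)) h
    rw [mul_assoc, this]; ring
  constructor
  · unfold sev
    rw [map_sum, Finset.smul_sum]
    apply Finset.sum_congr rfl
    intro σ _
    rw [hw σ]
    exact hgen _ _ _ _ _ (hkey σ)
  · unfold sev
    rw [map_sum, Finset.smul_sum]
    apply Finset.sum_congr rfl
    intro σ _
    rw [hw σ]
    exact hgen _ _ _ _ _ (hkey2 σ)

lemma sev_add (h1 : ∀ x y, ι (x * y) = ι x * ι y) (h6 : ∀ x y, ι x * κ y = κ (x * y))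
    (h7 : ∀ x y, κ x * κ y = 0)
    (h8 : ∀ x, ∀ y ∈ A.gr 0, κ x * ι y = κ (x * y))
    (h9 : ∀ x, ∀ y ∈ A.gr 1, κ x * ι y = - κ (x * y)) (f : MPoly F)
    (p : Fin (f.n + 1) → ZMod 2) (a b : Fin (f.n + 1) → A) (ha : ∀ i, a i ∈ A.gr (p i)) :
    sev f p (fun i => ι (a i) + κ (b i)) = ι (sev f p a) +
      ∑ j, sev f p (Function.update (fun i => ι (a i)) j (κ (b j))) := by
  unfold sev
  rw [map_sum, Finset.sum_comm, ← Finset.sum_add_distrib]
  apply Finset.sum_congr rfl
  intro σ _
  rw [wprod_add ι κ h1 h6 h7 h8 h9 f.n (fun i => p (σ i)) (fun i => a (σ i)) (fun i => b (σ i))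
    (fun i => ha _), smul_add, map_smul, ← Finset.smul_sum]
  congr 2
  rw [← Equiv.sum_comp σ (fun k => wprod f.n
    (fun i => Function.update (fun i => ι (a i)) k (κ (b k)) (σ i)))]
  apply Finset.sum_congr rfl
  intro k _
  rw [comp_upd, Equiv.symm_apply_apply]

end

theorem t_EPS : S_EPX.{u} → S_KSG → S_EPS.{u} := by
  intro hX hK F _ A
  obtain ⟨A', ι, κ, h1, h2, h3, h4, h5, h6, h7, h8, h9⟩ := hX F A
  refine ⟨A', ι, h1, h2, ?_, ?_⟩
  · intro g hg p z hz
    choose a ha b hb hzab using fun i => h5 (p i) (z i) (hz i)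
    have hzz : z = fun i => ι (a i) + κ (b i) := funext hzab
    rw [hzz, sev_add ι κ h1 h6 h7 h8 h9 g p a b ha, hg p a ha, map_zero, zero_add]
    apply Finset.sum_eq_zero
    intro j _
    rcases z2 (p j) with hj | hj
    · rw [(sev_upd ι κ hK h1 h6 h8 h9 g p a j hj (fun i _ => ha i) (b j)).2,
        hg (Function.update p j 1) (Function.update a j (b j)), map_zero, smul_zero]
      intro i
      by_cases hi : i = j
      · subst hi
        rw [Function.update_self, Function.update_self]
        have := hb i
        rw [hj] at this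
        simpa using this
      · rw [Function.update_of_ne hi, Function.update_of_ne hi]
        exact ha i
    · have hp : p = Function.update (Function.update p j 0) j 1 := by
        rw [Function.update_idem, ← hj, Function.update_eq_self]
      have hsev := (sev_upd ι κ hK h1 h6 h8 h9 g (Function.update p j 0) a j
        (Function.update_self _ _ _)
        (fun i hi => by rw [Function.update_of_ne hi]; exact ha i) (b j)).1
      rw [← hp] at hsev
      rw [hsev, hg (Function.update p j 0) (Function.update a j (b j)), map_zero, smul_zero]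
      intro i
      by_cases hi : i = j
      · subst hi
        rw [Function.update_self, Function.update_self]
        have := hb i
        rw [hj] at this
        have h11 : (1 : ZMod 2) + 1 = 0 := by decide
        rwa [h11] at this
      · rw [Function.update_of_ne hi, Function.update_of_ne hi]
        exact ha i
  · intro f p a j ha hj hne
    refine ⟨κ (a j), ?_, ?_⟩
    · have := h3 0 (a j) (by rw [← hj]; exact ha j)
      simpa using this
    · rw [(sev_upd ι κ hK h1 h6 h8 h9 f p a j hj (fun i _ => ha i) (a j)).1,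
        Function.update_eq_self]
      intro h0
      have hR := sq_one (fun i : Fin (f.n + 1) => j < i ∧ p i = 1)
      change rs p j * rs p j = 1 at hR
      have h10 : κ (sev f p a) = 0 := by
        have := congrArg (fun z => rs p j • z) h0
        simp only [smul_smul, hR, one_smul, smul_zero] at this
        exact this
      exact hne (h4 (by rw [h10, map_zero]))

end Pool.Agent.E8helper64.SR
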